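import Pool.Agent.R972.OP.Stm

/-! OP-POI: assembly of the Poincare inequality on order polytopes (project OP, owner helper972). -/

set_option autoImplicit false

namespace Pool.Agent.H152R2.OP

open MeasureTheory Set Filter Topology Pool.Agent.R972.OP

lemma wc (N : ℕ) : WC N (fun k => (k : ℝ)) (cc N) (((N : ℝ) - 1) / 2) := by
  refine ⟨?_, ?_, ?_⟩
  · intro k _
    push_cast
    linarith
  · intro k hk
    unfold cc
    have h : ((k : ℝ) + 1) < N := by exact_mod_cast hk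
    have h0 : (0 : ℝ) ≤ k := Nat.cast_nonneg k
    have : (0 : ℝ) ≤ (N : ℝ) - 1 - k := by linarith
    positivity
  · intro j hj
    have h1 : (if j + 1 < N then cc N j * (((j + 1 : ℕ) : ℝ) - (j : ℝ)) else 0) =
        ((j : ℝ) + 1) * ((N : ℝ) - 1 - j) / 2 := by
      split_ifs with h
      · unfold cc
        push_cast
        ring
      · have : (N : ℝ) = j + 1 := by exact_mod_cast (by omega : N = j + 1)
        rw [this]
        ring
    have h2 : (if 0 < j then cc N (j - 1) * ((j : ℝ) - ((j - 1 : ℕ) : ℝ)) else 0) =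
        (j : ℝ) * ((N : ℝ) - j) / 2 := by
      split_ifs with h
      · unfold cc
        have h3 : ((j - 1 : ℕ) : ℝ) = (j : ℝ) - 1 := by
          rw [Nat.cast_sub h]
          simp
        rw [h3]
        ring
      · have : j = 0 := by omega
        subst this
        simp
    show (if j + 1 < N then cc N j * (((j + 1 : ℕ) : ℝ) - (j : ℝ)) else 0) -
      (if 0 < j then cc N (j - 1) * ((j : ℝ) - ((j - 1 : ℕ) : ℝ)) else 0) = _
    rw [h1, h2]
    ring

lemma mem_cfg {n N : ℕ} {R : Fin n → Fin n → Prop} {g : Fin n → ℕ} (h : g ∈ cfg N R) :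
    (∀ a, g a < N) ∧ Function.Injective g := by
  classical
  unfold cfg at h
  rw [Finset.mem_filter, Fintype.mem_piFinset] at h
  exact ⟨fun a => Finset.mem_range.mp (h.1 a), h.2.1⟩

theorem poi (h1 : S_LAT) (h2 : S_RS) (h3 : S_ADJ) (h4 : S_UPC) (h5 : S_UPA) : S_POI := by
  classical
  intro n R hR f hf
  obtain ⟨err, C, herr, hC, hbd⟩ := h5 n f hf
  have hcf : Continuous f := hf.continuous
  have hcpd : ∀ a, Continuous (pd f a) := by
    intro a
    unfold pd
    exact (hf.continuous_fderiv (by norm_num)).clm_apply continuous_const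
  have hcG : Continuous (GG f) := by
    unfold GG
    refine continuous_finsetSum _ fun a _ => ?_
    exact ((continuous_apply a).mul (continuous_const.sub (continuous_apply a))).mul ((hcpd a).pow 2)
  have t1 := h2 n R hR (fun _ => (1 : ℝ)) continuous_const
  have tf := h2 n R hR f hcf
  have tf2 := h2 n R hR (fun x => f x ^ 2) (hcf.pow 2)
  have tG := h2 n R hR (GG f) hcG
  have tA := h3 n R
  have hvol : (∫ _x in OPp R, (1 : ℝ)) = (volume (OPp R)).toReal := by
    rw [setIntegral_const]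
    simp [Measure.real]
  rw [hvol] at t1
  -- the limits of both sides
  have tL := (t1.mul tf2).sub (tf.pow 2)
  have tR := t1.mul (((tG.add (herr.mul t1)).add (tA.const_mul C)).const_mul (1 / 2 : ℝ))
  have hlim : (volume (OPp R)).toReal * (1 / 2 * ((∫ x in OPp R, GG f x) +
      0 * (volume (OPp R)).toReal + C * 0)) =
      (volume (OPp R)).toReal * (1 / 2 * ∫ x in OPp R, GG f x) := by ring
  rw [hlim] at tR
  refine le_of_tendsto_of_tendsto tL tR ?_
  filter_upwards [eventually_gt_atTop 0] with N hN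
  have hN0 : (0 : ℝ) < N := by exact_mod_cast hN
  have hNn : (0 : ℝ) < (N : ℝ) ^ n := by positivity
  have hlat := h1 n N R (fun k => (k : ℝ)) (cc N) _ (wc N) (fun g => f (lp N g))
  have hQ : ∀ g ∈ cfg N R, QQ N R (cc N) (fun g => f (lp N g)) g ≤
      GG f (lp N g) + err N + C * (adj g : ℝ) := by
    intro g hg
    obtain ⟨hlt, hinj⟩ := mem_cfg hg
    obtain ⟨hb1, hb2⟩ := hbd N g hN hlt hinj
    refine (h4 n N R (cc N) (fun g => f (lp N g)) (wc N).nonneg g hg).trans ?_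
    apply add_le_add hb1
    calc _ ≤ (Finset.univ.filter (fun p : Fin n × Fin n => g p.2 = g p.1 + 1)).card • C := by
          apply Finset.sum_le_card_nsmul
          intro p hp
          rw [Finset.mem_filter] at hp
          exact hb2 p.1 p.2 hp.2
      _ = C * (adj g : ℝ) := by
          rw [nsmul_eq_mul, mul_comm]
          rfl
  have hsum : ∑ g ∈ cfg N R, QQ N R (cc N) (fun g => f (lp N g)) g ≤
      (∑ g ∈ cfg N R, GG f (lp N g)) + (cfg N R).card * err N + C * ∑ g ∈ cfg N R, (adj g : ℝ) := by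
    refine (Finset.sum_le_sum hQ).trans (le_of_eq ?_)
    rw [Finset.sum_add_distrib, Finset.sum_add_distrib, Finset.sum_const, nsmul_eq_mul,
      Finset.mul_sum]
  have hfin : ((cfg N R).card : ℝ) * ∑ g ∈ cfg N R, f (lp N g) ^ 2 -
      (∑ g ∈ cfg N R, f (lp N g)) ^ 2 ≤ (cfg N R).card * (1 / 2 * ((∑ g ∈ cfg N R, GG f (lp N g)) +
        (cfg N R).card * err N + C * ∑ g ∈ cfg N R, (adj g : ℝ))) := by
    refine hlat.trans ?_
    apply mul_le_mul_of_nonneg_left _ (Nat.cast_nonneg _)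
    exact mul_le_mul_of_nonneg_left hsum (by norm_num)
  have hcard1 : (∑ _g ∈ cfg N R, (1 : ℝ)) = (cfg N R).card := by simp
  show (∑ _g ∈ cfg N R, (1 : ℝ)) / (N : ℝ) ^ n * ((∑ g ∈ cfg N R, f (lp N g) ^ 2) / (N : ℝ) ^ n) -
      ((∑ g ∈ cfg N R, f (lp N g)) / (N : ℝ) ^ n) ^ 2 ≤
    (∑ _g ∈ cfg N R, (1 : ℝ)) / (N : ℝ) ^ n * (1 / 2 * ((∑ g ∈ cfg N R, GG f (lp N g)) / (N : ℝ) ^ n +
      err N * ((∑ _g ∈ cfg N R, (1 : ℝ)) / (N : ℝ) ^ n) +
        C * ((∑ g ∈ cfg N R, (adj g : ℝ)) / (N : ℝ) ^ n)))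
  rw [hcard1]
  have hl : ((cfg N R).card : ℝ) / (N : ℝ) ^ n * ((∑ g ∈ cfg N R, f (lp N g) ^ 2) / (N : ℝ) ^ n) -
      ((∑ g ∈ cfg N R, f (lp N g)) / (N : ℝ) ^ n) ^ 2 =
      (((cfg N R).card : ℝ) * ∑ g ∈ cfg N R, f (lp N g) ^ 2 -
      (∑ g ∈ cfg N R, f (lp N g)) ^ 2) / ((N : ℝ) ^ n) ^ 2 := by
    field_simp
  have hr : ((cfg N R).card : ℝ) / (N : ℝ) ^ n * (1 / 2 * ((∑ g ∈ cfg N R, GG f (lp N g)) / (N : ℝ) ^ n +
      err N * (((cfg N R).card : ℝ) / (N : ℝ) ^ n) +
        C * ((∑ g ∈ cfg N R, (adj g : ℝ)) / (N : ℝ) ^ n))) =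
      ((cfg N R).card * (1 / 2 * ((∑ g ∈ cfg N R, GG f (lp N g)) +
        (cfg N R).card * err N + C * ∑ g ∈ cfg N R, (adj g : ℝ)))) / ((N : ℝ) ^ n) ^ 2 := by
    field_simp
  rw [hl, hr]
  exact div_le_div_of_nonneg_right hfin (by positivity)

end Pool.Agent.H152R2.OP
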